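import Pool.Agent.H474.MS.Stm

/-!
# A Gaussian cosine integral (project MS of helper474)
-/

set_option autoImplicit false

open MeasureTheory Filter Topology Set

namespace Pool.Agent.H229.MS.L5

/-- `x ^ n e^{-x²/2}` is integrable on the positive half-line -/
lemma int_pow (n : ℕ) : IntegrableOn (fun x : ℝ => x ^ n * Real.exp (-(x ^ 2 / 2))) (Ioi 0) := by
  have h := integrableOn_rpow_mul_exp_neg_mul_sq (b := 1 / 2) (by norm_num) (s := n)
    (by have : (0 : ℝ) ≤ n := Nat.cast_nonneg n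
        linarith)
  refine h.congr_fun (fun x _ => ?_) measurableSet_Ioi
  simp only [Real.rpow_natCast]
  congr 2
  ring

/-- a bounded continuous factor keeps integrability -/
lemma int_bdd {f g : ℝ → ℝ} (hf : IntegrableOn f (Ioi 0)) (hg : Continuous g) (C : ℝ)
    (hC : ∀ x, |g x| ≤ C) : IntegrableOn (fun x => f x * g x) (Ioi 0) := by
  have := Integrable.bdd_mul (c := C) hf hg.aestronglyMeasurable
    (Filter.Eventually.of_forall fun x => by rw [Real.norm_eq_abs]; exact hC x)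
  refine this.congr (Filter.Eventually.of_forall fun x => ?_)
  simp only
  ring

lemma gauss_cos (t : ℝ) : ∫ x in Ioi (0 : ℝ), Real.exp (-(x ^ 2 / 2)) * Real.cos (t * x) =
    √(2 * Real.pi) / 2 * Real.exp (-(t ^ 2 / 2)) := by
  have h1 : ∫ x : ℝ, Real.exp (-(x ^ 2 / 2)) * Real.cos (t * x) =
      2 * ∫ x in Ioi (0 : ℝ), Real.exp (-(x ^ 2 / 2)) * Real.cos (t * x) := by
    rw [← integral_comp_abs (f := fun x : ℝ => Real.exp (-(x ^ 2 / 2)) * Real.cos (t * x))]
    apply integral_congr_ae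
    refine Filter.Eventually.of_forall fun x => ?_
    simp only [sq_abs]
    congr 1
    rcases abs_choice x with h | h
    · rw [h]
    · rw [h, mul_neg, Real.cos_neg]
  have h2 := fourierIntegral_gaussian (b := ((1 / 2 : ℝ) : ℂ)) (by rw [Complex.ofReal_re]; norm_num) (t : ℂ)
  have h3 : (∫ x : ℝ, Real.exp (-(x ^ 2 / 2)) * Real.cos (t * x)) =
      (∫ x : ℝ, Complex.exp (Complex.I * t * x) * Complex.exp (-((1 / 2 : ℝ) : ℂ) * (x : ℂ) ^ 2)).re := by
    have hint : Integrable (fun x : ℝ => Complex.exp (Complex.I * t * x) *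
        Complex.exp (-((1 / 2 : ℝ) : ℂ) * (x : ℂ) ^ 2)) := by
      refine Integrable.mono' (g := fun x : ℝ => Real.exp (-(1 / 2) * x ^ 2))
        (integrable_exp_neg_mul_sq (by norm_num)) (Continuous.aestronglyMeasurable (by fun_prop))
        (Filter.Eventually.of_forall fun x => ?_)
      rw [← Complex.exp_add, Complex.norm_exp]
      apply le_of_eq
      congr 1
      rw [show Complex.I * (t : ℂ) * (x : ℂ) + -((1 / 2 : ℝ) : ℂ) * (x : ℂ) ^ 2 =
        ((-(1 / 2) * x ^ 2 : ℝ) : ℂ) + ((t * x : ℝ) : ℂ) * Complex.I by push_cast; ring,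
        Complex.add_re, Complex.re_ofReal_mul, Complex.ofReal_re, Complex.I_re, mul_zero, add_zero]
    rw [show (∫ x : ℝ, Complex.exp (Complex.I * t * x) *
        Complex.exp (-((1 / 2 : ℝ) : ℂ) * (x : ℂ) ^ 2)).re = RCLike.re (∫ x : ℝ, Complex.exp (Complex.I * t * x) *
        Complex.exp (-((1 / 2 : ℝ) : ℂ) * (x : ℂ) ^ 2)) from rfl, ← integral_re hint]
    apply integral_congr_ae
    refine Filter.Eventually.of_forall fun x => ?_
    simp only
    rw [show Complex.I * (t : ℂ) * (x : ℂ) = ((t * x : ℝ) : ℂ) * Complex.I by push_cast; ring,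
      show -((1 / 2 : ℝ) : ℂ) * (x : ℂ) ^ 2 = ((-(x ^ 2 / 2) : ℝ) : ℂ) by push_cast; ring,
      ← Complex.ofReal_exp, mul_comm (Complex.exp _)]
    show _ = (((Real.exp (-(x ^ 2 / 2)) : ℝ) : ℂ) * Complex.exp (((t * x : ℝ) : ℂ) * Complex.I)).re
    rw [Complex.re_ofReal_mul, Complex.exp_ofReal_mul_I_re]
  have h4 : ((Real.pi / ((1 / 2 : ℝ) : ℂ)) ^ (1 / 2 : ℂ) *
      Complex.exp (-(t : ℂ) ^ 2 / (4 * ((1 / 2 : ℝ) : ℂ)))) =
      ((√(2 * Real.pi) * Real.exp (-(t ^ 2 / 2)) : ℝ) : ℂ) := by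
    rw [Complex.ofReal_mul, Complex.ofReal_exp]
    congr 1
    · rw [Real.sqrt_eq_rpow, Complex.ofReal_cpow (by positivity)]
      congr 1
      · push_cast; ring
      · push_cast; ring
    · congr 1
      push_cast
      ring
  have h5 : ∫ x : ℝ, Real.exp (-(x ^ 2 / 2)) * Real.cos (t * x) =
      √(2 * Real.pi) * Real.exp (-(t ^ 2 / 2)) := by
    rw [h3, h2, h4, Complex.ofReal_re]
  linarith

theorem t_L5 : Pool.Agent.H474.MS.S_L5 := by
  intro t
  have hE : ∀ x : ℝ, HasDerivAt (fun x : ℝ => Real.exp (-(x ^ 2 / 2)))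
      (-x * Real.exp (-(x ^ 2 / 2))) x := by
    intro x
    have h := (((hasDerivAt_id x).pow 2).div_const 2).neg.exp
    refine h.congr_deriv ?_
    simp
    ring
  have hc : ∀ x : ℝ, HasDerivAt (fun x : ℝ => Real.cos (t * x)) (-Real.sin (t * x) * t) x := by
    intro x
    have h := ((hasDerivAt_id x).const_mul t).cos
    refine h.congr_deriv ?_
    simp
  have hs : ∀ x : ℝ, HasDerivAt (fun x : ℝ => Real.sin (t * x)) (Real.cos (t * x) * t) x := by
    intro x
    have h := ((hasDerivAt_id x).const_mul t).sin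
    refine h.congr_deriv ?_
    simp
  have hΦ : ∀ x : ℝ, HasDerivAt (fun x : ℝ => -2 * (x * Real.exp (-(x ^ 2 / 2)) * (1 - Real.cos (t * x)))
      - 2 * t * (Real.exp (-(x ^ 2 / 2)) * Real.sin (t * x)))
      ((x ^ 2 - 1) * Real.exp (-(x ^ 2 / 2)) * (2 * (1 - Real.cos (t * x))) -
        2 * t ^ 2 * (Real.exp (-(x ^ 2 / 2)) * Real.cos (t * x))) x := by
    intro x
    have h := ((((hasDerivAt_id x).mul (hE x)).mul ((hc x).const_sub 1)).const_mul (-2)).sub
      (((hE x).mul (hs x)).const_mul (2 * t))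
    refine h.congr_deriv ?_
    simp
    ring
  have hb1 : ∀ x : ℝ, |1 - Real.cos (t * x)| ≤ 2 := fun x => by
    rw [abs_le]
    constructor <;> linarith [Real.cos_le_one (t * x), Real.neg_one_le_cos (t * x)]
  have i0 : IntegrableOn (fun x : ℝ => Real.exp (-(x ^ 2 / 2))) (Ioi 0) := by
    simpa using int_pow 0
  have i1 : IntegrableOn (fun x : ℝ => x * Real.exp (-(x ^ 2 / 2))) (Ioi 0) := by
    simpa using int_pow 1
  have i2 := int_pow 2
  have j1 : IntegrableOn (fun x : ℝ => (x ^ 2 - 1) * Real.exp (-(x ^ 2 / 2))) (Ioi 0) := by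
    refine (i2.sub i0).congr_fun (fun x _ => ?_) measurableSet_Ioi
    simp only [Pi.sub_apply]
    ring
  have k1 : IntegrableOn (fun x : ℝ => (x ^ 2 - 1) * Real.exp (-(x ^ 2 / 2)) *
      (2 * (1 - Real.cos (t * x)))) (Ioi 0) := by
    refine int_bdd j1 (by fun_prop) 4 (fun x => ?_)
    rw [abs_mul]
    have := hb1 x
    rw [abs_of_pos (by norm_num : (0 : ℝ) < 2)]
    linarith
  have k2 : IntegrableOn (fun x : ℝ => Real.exp (-(x ^ 2 / 2)) * Real.cos (t * x)) (Ioi 0) :=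
    int_bdd i0 (by fun_prop) 1 (fun x => Real.abs_cos_le_one _)
  have k3 : IntegrableOn (fun x : ℝ => x * Real.exp (-(x ^ 2 / 2)) * (1 - Real.cos (t * x))) (Ioi 0) :=
    int_bdd i1 (by fun_prop) 2 hb1
  have k4 : IntegrableOn (fun x : ℝ => Real.exp (-(x ^ 2 / 2)) * Real.sin (t * x)) (Ioi 0) :=
    int_bdd i0 (by fun_prop) 1 (fun x => Real.abs_sin_le_one _)
  have d1 : IntegrableOn (fun x : ℝ => (x ^ 2 - 1) * Real.exp (-(x ^ 2 / 2)) *
      (2 * (1 - Real.cos (t * x))) - 2 * t ^ 2 * (Real.exp (-(x ^ 2 / 2)) * Real.cos (t * x))) (Ioi 0) :=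
    k1.sub (k2.const_mul _)
  have d2 : IntegrableOn (fun x : ℝ => -2 * (x * Real.exp (-(x ^ 2 / 2)) * (1 - Real.cos (t * x)))
      - 2 * t * (Real.exp (-(x ^ 2 / 2)) * Real.sin (t * x))) (Ioi 0) :=
    (k3.const_mul _).sub (k4.const_mul _)
  have lim := tendsto_zero_of_hasDerivAt_of_integrableOn_Ioi (fun x _ => hΦ x) d1 d2
  have ftc := integral_Ioi_of_hasDerivAt_of_tendsto (hΦ 0).continuousAt.continuousWithinAt
    (fun x _ => hΦ x) d1 lim
  rw [integral_sub k1 (k2.const_mul _), integral_const_mul, gauss_cos] at ftc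
  simp at ftc
  have : ∫ κ in Ioi (0 : ℝ), (κ ^ 2 - 1) * Real.exp (-(κ ^ 2 / 2)) * (2 * (1 - Real.cos (t * κ))) =
      2 * t ^ 2 * (√(2 * Real.pi) / 2 * Real.exp (-(t ^ 2 / 2))) := by
    simp
    linarith
  rw [this]
  ring

end Pool.Agent.H229.MS.L5
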